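import Pool.Agent.Q44.JQ.StmE
import Pool.Agent.Q177.JQ.SS

/-!
# Project JQ of helper44, job JQ-SS2 (helper225): the maximal subspaces are the graphs of the operators
of families of symmetric matrices, all operators (after Pool.Agent.Q177.JQ.SS of helper177)
-/

set_option autoImplicit false
set_option linter.unusedVariables false

namespace Pool.Agent.Q225.JQ

open Finset Module Q44.JQ Pool.Agent.Q177.JQ
open scoped Classical

section sigma

variable {κ : Type} [Fintype κ] {V : κ → Type} [∀ k, AddCommGroup (V k)] [∀ k, Module (ZMod 2) (V k)]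
  {m : κ → ℕ}

/-- invariance under everything -/
theorem inv_all {s : Type} [Fintype s] (D : ∀ k, Dj s (V k)) (hadj : Adj2 D)
    (Λ : Submodule (ZMod 2) (UV V m × UV V m))
    (hinv : ∀ φ : s → ZMod 2, ∀ z ∈ Λ,
      (dgE V (fun k => (D k).T φ) z.1, dgE V (fun k => (D k).T φ) z.2) ∈ Λ)
    (E : ∀ k, Module.End (ZMod 2) (V k)) : ∀ z ∈ Λ, (dgE V E z.1, dgE V E z.2) ∈ Λ := by
  have hE : E ∈ Algebra.adjoin (ZMod 2) (Set.range fun φ : s → ZMod 2 =>
    (fun k => (D k).T φ : ∀ k, Module.End (ZMod 2) (V k))) := by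
    rw [show Algebra.adjoin (ZMod 2) (Set.range fun φ : s → ZMod 2 =>
      (fun k => (D k).T φ : ∀ k, Module.End (ZMod 2) (V k))) = ⊤ from hadj]
    exact Algebra.mem_top
  induction hE using Algebra.adjoin_induction with
  | mem x hx =>
    obtain ⟨φ, rfl⟩ := hx
    exact hinv φ
  | algebraMap a =>
    intro z hz
    rw [dgE_algebraMap, dgE_algebraMap]
    exact Λ.smul_mem a hz
  | add x y _ _ hx hy =>
    intro z hz
    rw [dgE_add, dgE_add]
    exact Λ.add_mem (hx z hz) (hy z hz)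
  | mul x y _ _ hx hy =>
    intro z hz
    rw [dgE_mul, dgE_mul]
    exact hx _ (hy z hz)

end sigma

section main

variable {s κ : Type} [Fintype s] [Fintype κ] {V : κ → Type} [∀ k, AddCommGroup (V k)]
  [∀ k, Module (ZMod 2) (V k)] {m : κ → ℕ}

theorem part3 [∀ k, Finite (V k)] [∀ k, Nontrivial (V k)] (t₀ : s) (ρ : s → ZMod 2)
    (D : ∀ k, Dj s (V k)) (hok : ∀ k, (D k).Ok ρ) (hadj : Adj2 D)
    (Λ : Submodule (ZMod 2) (UV V m × UV V m)) (hsing : ∀ z ∈ Λ, (DD t₀ D m).ω z.2 z.1 = 0)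
    (hcard : Nat.card Λ = Nat.card (UV V m))
    (hG : GmD V (Λ.map (LinearMap.fst (ZMod 2) (UV V m) (UV V m))))
    (hinv : ∀ φ : s → ZMod 2, ∀ z ∈ Λ,
      ((DD t₀ D m).T φ z.1, (DD t₀ D m).T φ z.2) ∈ Λ) :
    ∃ S ∈ SS V m, ∀ z, z ∈ Λ ↔ z.2 = S z.1 := by
  have hall := inv_all D hadj Λ hinv
  have htop := fst_top (Λ.map (LinearMap.fst (ZMod 2) (UV V m) (UV V m))) (by
    rintro E x hx
    rw [Submodule.mem_map] at hx ⊢
    obtain ⟨z, hz, rfl⟩ := hx
    exact ⟨_, hall E z hz, rfl⟩) hG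
  set p : Λ →ₗ[ZMod 2] UV V m := (LinearMap.fst (ZMod 2) (UV V m) (UV V m)).comp Λ.subtype with hp
  have hsurj : Function.Surjective p := by
    intro x
    have hx : x ∈ Λ.map (LinearMap.fst (ZMod 2) (UV V m) (UV V m)) := by
      rw [htop]; exact Submodule.mem_top
    rw [Submodule.mem_map] at hx
    obtain ⟨z, hz, rfl⟩ := hx
    exact ⟨⟨z, hz⟩, rfl⟩
  have hfin : Finite (UV V m) := Pi.finite
  have hfin2 : Finite Λ := inferInstance
  have hbij : Function.Bijective p := by
    haveI := Fintype.ofFinite Λ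
    haveI := Fintype.ofFinite (UV V m)
    rw [Fintype.bijective_iff_surjective_and_card]
    refine ⟨hsurj, ?_⟩
    rw [← Nat.card_eq_fintype_card, ← Nat.card_eq_fintype_card, hcard]
  set e : Λ ≃ₗ[ZMod 2] UV V m := LinearEquiv.ofBijective p hbij with he
  set S : UV V m →ₗ[ZMod 2] UV V m :=
    (LinearMap.snd (ZMod 2) (UV V m) (UV V m)).comp (Λ.subtype.comp e.symm.toLinearMap) with hS
  have hgraph : ∀ z, z ∈ Λ ↔ z.2 = S z.1 := by
    intro z
    constructor
    · intro hz
      have h1 : e ⟨z, hz⟩ = z.1 := rfl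
      have h2 : e.symm z.1 = ⟨z, hz⟩ := by rw [← h1, e.symm_apply_apply]
      show z.2 = ((e.symm z.1 : Λ) : UV V m × UV V m).2
      rw [h2]
    · intro hz
      have h1 : ((e.symm z.1 : Λ) : UV V m × UV V m).1 = z.1 := e.apply_symm_apply z.1
      have h2 : ((e.symm z.1 : Λ) : UV V m × UV V m) = z := Prod.ext h1 hz.symm
      rw [← h2]
      exact (e.symm z.1).2
  have hSE : ∀ (E : ∀ k, Module.End (ZMod 2) (V k)) (x : UV V m), S (dgE V E x) = dgE V E (S x) := by
    intro E x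
    have h1 : (x, S x) ∈ Λ := (hgraph _).2 rfl
    have h2 := hall E _ h1
    rw [hgraph] at h2
    exact h2.symm
  have hSω : ∀ x, (DD t₀ D m).ω (S x) x = 0 := fun x => hsing _ ((hgraph (x, S x)).2 rfl)
  -- the entries
  have hker : ∀ (k k' : κ) (b : Fin (m k)) (a : Fin (m k')), k' ≠ k → ∀ v : V k,
      S (Pi.single (⟨k, b⟩ : Σ k, Fin (m k)) v : UV V m) ⟨k', a⟩ = 0 := by
    intro k k' b a hne v
    have h1 := hSE (atk V k' 0) (Pi.single (⟨k, b⟩ : Σ k, Fin (m k)) v : UV V m)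
    have h2 := hSE (atk V k 1) (Pi.single (⟨k, b⟩ : Σ k, Fin (m k)) v : UV V m)
    have h3 : dgE V (atk V k 1) (Pi.single (⟨k, b⟩ : Σ k, Fin (m k)) v : UV V m) =
        (Pi.single (⟨k, b⟩ : Σ k, Fin (m k)) v : UV V m) := by
      funext c
      obtain ⟨k'', a'⟩ := c
      show (atk V k 1 k'') ((Pi.single (⟨k, b⟩ : Σ k, Fin (m k)) v : UV V m) ⟨k'', a'⟩) = _
      by_cases h : k'' = k
      · subst h
        unfold atk
        rw [Pi.single_eq_same]
        rfl
      · rw [Pi.single_eq_of_ne (fun h' => h (Sigma.mk.inj_iff.1 h').1), map_zero]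
    rw [h3] at h2
    rw [h2]
    show (atk V k 1 k') _ = 0
    unfold atk
    rw [Pi.single_eq_of_ne hne]
    rfl
  have hent : ∀ (k : κ) (b a : Fin (m k)), ∃ r : ZMod 2, ∀ v : V k,
      S (Pi.single (⟨k, b⟩ : Σ k, Fin (m k)) v : UV V m) ⟨k, a⟩ = r • v := by
    intro k b a
    let L : Module.End (ZMod 2) (V k) :=
      (LinearMap.proj (⟨k, a⟩ : Σ k, Fin (m k)) : UV V m →ₗ[ZMod 2] V k).comp
        (S.comp (LinearMap.single (ZMod 2) (fun c : (Σ k, Fin (m k)) => V c.1) ⟨k, b⟩))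
    have hL : ∀ v, L v = S (Pi.single (⟨k, b⟩ : Σ k, Fin (m k)) v : UV V m) ⟨k, a⟩ := fun v => rfl
    obtain ⟨r, hr⟩ := scal L (by
      intro f v
      have h1 := hSE (atk V k f) (Pi.single (⟨k, b⟩ : Σ k, Fin (m k)) v : UV V m)
      have h3 : dgE V (atk V k f) (Pi.single (⟨k, b⟩ : Σ k, Fin (m k)) v : UV V m) =
          (Pi.single (⟨k, b⟩ : Σ k, Fin (m k)) (f v) : UV V m) := by
        rw [dgE_atk, Finset.sum_eq_single b]
        · rw [Pi.single_eq_same]
        · intro b' _ hb'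
          rw [Pi.single_eq_of_ne, map_zero, Pi.single_zero]
          intro h
          exact hb' (eq_of_heq (Sigma.mk.inj_iff.1 h).2)
        · intro h
          exact absurd (mem_univ _) h
      rw [h3] at h1
      rw [hL, hL, h1]
      show (atk V k f k) _ = _
      unfold atk
      rw [Pi.single_eq_same])
    exact ⟨r, fun v => by rw [← hL, hr]⟩
  choose M hM using fun k (b a : Fin (m k)) => hent k b a
  have hSM : S = opS V (fun k => Matrix.of fun a b => M k b a) := by
    apply LinearMap.ext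
    intro x
    funext c
    obtain ⟨k, a⟩ := c
    have hx : x = ∑ c : (Σ k, Fin (m k)), (Pi.single c (x c) : UV V m) := by
      funext c
      rw [Finset.sum_apply, Finset.sum_eq_single c]
      · rw [Pi.single_eq_same]
      · intro b _ hb
        rw [Pi.single_eq_of_ne hb.symm]
      · intro h
        exact absurd (mem_univ _) h
    have h1 : S x ⟨k, a⟩ = ∑ c : (Σ k, Fin (m k)), S (Pi.single c (x c) : UV V m) ⟨k, a⟩ := by
      conv_lhs => rw [hx]
      rw [map_sum, Finset.sum_apply]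
    rw [h1, Fintype.sum_sigma, Finset.sum_eq_single k]
    · show _ = (∑ b, M k b a • x ⟨k, b⟩ : V k)
      exact Finset.sum_congr rfl fun b _ => hM k b a _
    · intro k' _ hk'
      apply Finset.sum_eq_zero
      intro b _
      exact hker k' k b a hk'.symm _
    · intro h
      exact absurd (mem_univ _) h
  refine ⟨S, ?_, hgraph⟩
  unfold SS
  rw [mem_image]
  refine ⟨fun k => Matrix.of fun a b => M k b a, ?_, hSM.symm⟩
  rw [mem_filter]
  refine ⟨mem_univ _, fun k => ?_⟩
  ext a b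
  show M k a b = M k b a
  by_cases hab : a = b
  · rw [hab]
  obtain ⟨u, hu⟩ := exists_ne (0 : V k)
  obtain ⟨v, huv⟩ : ∃ v, (D k).ω u v ≠ 0 := by
    by_contra hcon
    push Not at hcon
    exact hu ((hok k).nd u hcon)
  set x1 : UV V m := Pi.single (⟨k, a⟩ : Σ k, Fin (m k)) u with hx1
  set x2 : UV V m := Pi.single (⟨k, b⟩ : Σ k, Fin (m k)) v with hx2
  have h1 := hSω (x1 + x2)
  rw [map_add, map_add, map_add, LinearMap.add_apply, LinearMap.add_apply, hSω, hSω, zero_add,
    add_zero] at h1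
  have e1 : (DD t₀ D m).ω (S x1) x2 = M k a b * (D k).ω u v := by
    rw [DD_ω, Finset.sum_eq_single (⟨k, b⟩ : Σ k, Fin (m k))]
    · show (D k).ω (S x1 ⟨k, b⟩) (x2 ⟨k, b⟩) = _
      rw [hx1, hM k a b u, hx2, Pi.single_eq_same, map_smul, LinearMap.smul_apply, smul_eq_mul]
    · intro c _ hc
      rw [hx2, Pi.single_eq_of_ne hc, map_zero]
    · intro h
      exact absurd (mem_univ _) h
  have e2 : (DD t₀ D m).ω (S x2) x1 = M k b a * (D k).ω v u := by
    rw [DD_ω, Finset.sum_eq_single (⟨k, a⟩ : Σ k, Fin (m k))]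
    · show (D k).ω (S x2 ⟨k, a⟩) (x1 ⟨k, a⟩) = _
      rw [hx2, hM k b a v, hx1, Pi.single_eq_same, map_smul, LinearMap.smul_apply, smul_eq_mul]
    · intro c _ hc
      rw [hx1, Pi.single_eq_of_ne hc, map_zero]
    · intro h
      exact absurd (mem_univ _) h
  rw [e1, e2] at h1
  have h2 : (D k).ω v u = (D k).ω u v := by
    have h3 := ω_swap D (fun k => (hok k).toSym) k u v
    have h4 := two_eq ((D k).ω u v)
    calc (D k).ω v u = (D k).ω u v + (D k).ω v u - (D k).ω u v := by ring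
      _ = 0 - (D k).ω u v := by rw [h3]
      _ = ((D k).ω u v + (D k).ω u v) - (D k).ω u v := by rw [h4]
      _ = (D k).ω u v := by ring
  rw [h2] at h1
  have h5 : (M k a b + M k b a) * (D k).ω u v = 0 := by rw [add_mul, add_comm]; exact h1
  have h6 := (mul_eq_zero.1 h5).resolve_right huv
  have h7 := two_eq (M k b a)
  calc M k a b = M k a b + M k b a - M k b a := by ring
    _ = 0 - M k b a := by rw [h6]
    _ = (M k b a + M k b a) - M k b a := by rw [h7]
    _ = M k b a := by ring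

end main

theorem t_SS2 : S_SS2 := by
  intro s κ _ _ V _ _ _ _ t₀ ρ D _ hok hadj m
  refine ⟨?_, part2 t₀ ρ D hok, part3 t₀ ρ D hok hadj⟩
  unfold SS
  rw [Finset.card_image_of_injective _ opS_inj, card_sym]
  push_cast
  rfl

end Pool.Agent.Q225.JQ
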